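import Mathlib

/-!
# Hypercyclic subspaces for composition operators on little Lipschitz spaces

For a rooted tree `T`, a bounded composition operator `C_φ` on `𝓛₀(T)` and `|lam| ≤ 1` such that
`lam C_φ` is hypercyclic we show that `lam C_φ` has a hypercyclic subspace.

Idea of the proof. Put `A = lam C_φ`.
(1) Post-composition with Lipschitz functions `H : ℂ → ℂ` acts on `𝓛₀(T)`, and is continuous at each
point uniformly over all `K`-Lipschitz `H`. If `f` is close to `x` and `A^n f` is close to `M y`,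
where `x, y` are finitely supported and `M` is huge, then `H ∘ f` is close to `H ∘ x` while
`A^n (H ∘ f)` is close to `0` for every Lipschitz `H` vanishing at `0` and far from `0`; moreover
`f / M` is small and `A^n (f / M)` is close to `y`. Hence topological transitivity of `A` gives all
the simultaneous approximations needed (theorem `stage`).
(2) `𝓛₀(T)` contains an isomorphic copy of `c₀`, spanned by indicator functions of vertices at even
levels, on which the powers of `A` are uniformly bounded (as `|lam| ≤ 1`). A perturbation of this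
copy of `c₀` is a hypercyclic subspace (theorem `hasHypercyclicSubspace`).
-/

open Filter Topology TopologicalSpace
open scoped ZeroAtInfty

namespace Pool.Agent.Results.MP_b108d3_an.HypercyclicSubspace

universe u

/-! ### Definitions used in the statement -/

/-- A rooted tree `T` in the sense of the problem: a connected acyclic graph on the vertex type `V`,
infinite and locally finite, with a distinguished vertex (the root), in which only the root may have
degree one. -/
structure RootedTree (V : Type u) where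
  /-- the underlying graph -/
  graph : SimpleGraph V
  /-- the root `o` -/
  root : V
  isTree : graph.IsTree
  locallyFinite : ∀ v, (graph.neighborSet v).Finite
  infinite : Infinite V
  degree_ne_one : ∀ v, v ≠ root → (graph.neighborSet v).ncard ≠ 1

variable {V : Type u} (T : RootedTree V)

/-- `|v|`, the number of edges from the root to `v`. -/
noncomputable def RootedTree.level (v : V) : ℕ := T.graph.dist T.root v

/-- `T.IsParent u v` says that `u = v⁻` is the parent of `v`: the neighbour of `v` on the path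
from the root to `v`, that is the neighbour of `v` with `|v| = |u| + 1`. -/
def RootedTree.IsParent (u v : V) : Prop := T.graph.Adj u v ∧ T.level v = T.level u + 1

/-- `T.InL0 f` says that `f` belongs to the little Lipschitz space `𝓛₀(T)`, that is
`|f(v) - f(v⁻)| → 0` as `|v| → ∞`. -/
def RootedTree.InL0 (f : V → ℂ) : Prop :=
  ∀ ε : ℝ, 0 < ε → ∃ N : ℕ, ∀ u v, T.IsParent u v → N ≤ T.level v → ‖f v - f u‖ < ε

/-- The norm `‖f‖ = max {|f(o)|, sup_{v ≠ o} |f(v) - f(v⁻)|}` of `𝓛₀(T)` (only used for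
`f ∈ 𝓛₀(T)`, for which the supremum is over a bounded set). -/
noncomputable def RootedTree.lipNorm (f : V → ℂ) : ℝ :=
  max ‖f T.root‖ (⨆ p : {p : V × V // T.IsParent p.1 p.2}, ‖f p.1.2 - f p.1.1‖)

/-- `φ` induces a composition operator `C_φ f = f ∘ φ` on `𝓛₀(T)`: it maps `𝓛₀(T)` into itself and
is bounded. -/
def RootedTree.IsBoundedCompositionOperator (φ : V → V) : Prop :=
  ∃ K : ℝ, ∀ f : V → ℂ, T.InL0 f → T.InL0 (f ∘ φ) ∧ T.lipNorm (f ∘ φ) ≤ K * T.lipNorm f

/-- The operator `lam • C_φ`, `f ↦ lam • (f ∘ φ)`. -/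
def compOp (lam : ℂ) (φ : V → V) (f : V → ℂ) : V → ℂ := fun v => lam * f (φ v)

/-- `f ∈ 𝓛₀(T)` is a hypercyclic vector of `lam • C_φ`: its orbit `{(lam • C_φ)^n f : n ≥ 0}` is
dense in `𝓛₀(T)`. -/
def RootedTree.IsHypercyclicVector (lam : ℂ) (φ : V → V) (f : V → ℂ) : Prop :=
  T.InL0 f ∧ ∀ g : V → ℂ, T.InL0 g → ∀ ε : ℝ, 0 < ε →
    ∃ n : ℕ, T.lipNorm ((compOp lam φ)^[n] f - g) < ε

/-- `lam • C_φ` has a hypercyclic subspace: there is a linear subspace `M` of `𝓛₀(T)` which is
closed, infinite-dimensional, and all of whose nonzero elements are hypercyclic vectors. -/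
def RootedTree.HasHypercyclicSubspace (lam : ℂ) (φ : V → V) : Prop :=
  ∃ M : Submodule ℂ (V → ℂ),
    (∀ f ∈ M, T.InL0 f) ∧
    (∀ g : V → ℂ, T.InL0 g → (∀ ε : ℝ, 0 < ε → ∃ f ∈ M, T.lipNorm (f - g) < ε) → g ∈ M) ∧
    ¬ FiniteDimensional ℂ M ∧
    ∀ f ∈ M, f ≠ 0 → T.IsHypercyclicVector lam φ f

/-! ### The normed space `𝓛₀(T)` (used only in the proof) -/

/-- The functions `f : T → ℂ` with `|f(v) - f(v⁻)| → 0` as `|v| → ∞`, as a linear subspace of
all functions. -/
def RootedTree.littleLip : Submodule ℂ (V → ℂ) where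
  carrier := {f | T.InL0 f}
  add_mem' := by
    intro f g hf hg ε hε
    obtain ⟨N, hN⟩ := hf (ε / 2) (by positivity)
    obtain ⟨M, hM⟩ := hg (ε / 2) (by positivity)
    refine ⟨max N M, fun u v huv hv => ?_⟩
    have h1 := hN u v huv (le_trans (le_max_left _ _) hv)
    have h2 := hM u v huv (le_trans (le_max_right _ _) hv)
    have : (f + g) v - (f + g) u = (f v - f u) + (g v - g u) := by
      simp only [Pi.add_apply]; ring
    rw [this]
    calc ‖(f v - f u) + (g v - g u)‖ ≤ ‖f v - f u‖ + ‖g v - g u‖ := norm_add_le _ _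
      _ < ε := by linarith
  zero_mem' := by
    intro ε hε
    exact ⟨0, fun u v _ _ => by simpa using hε⟩
  smul_mem' := by
    intro c f hf ε hε
    obtain ⟨N, hN⟩ := hf (ε / (‖c‖ + 1)) (by positivity)
    refine ⟨N, fun u v huv hv => ?_⟩
    have h1 := hN u v huv hv
    have : (c • f) v - (c • f) u = c * (f v - f u) := by
      simp only [Pi.smul_apply, smul_eq_mul]; ring
    rw [this, norm_mul]
    calc ‖c‖ * ‖f v - f u‖ ≤ (‖c‖ + 1) * ‖f v - f u‖ := by
          gcongr; linarith
      _ < (‖c‖ + 1) * (ε / (‖c‖ + 1)) := by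
          gcongr
      _ = ε := by field_simp

/-- The little Lipschitz space `𝓛₀(T)`. -/
def RootedTree.L0 : Type u := T.littleLip

noncomputable instance : AddCommGroup T.L0 := inferInstanceAs (AddCommGroup T.littleLip)

noncomputable instance : Module ℂ T.L0 := inferInstanceAs (Module ℂ T.littleLip)

instance : CoeFun T.L0 (fun _ => V → ℂ) := ⟨fun f => f.1⟩

/-- The norm `‖f‖ = max {|f(o)|, sup_{v ≠ o} |f(v) - f(v⁻)|}` of `𝓛₀(T)`. -/
noncomputable instance : Norm T.L0 := ⟨fun f => T.lipNorm f⟩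

/-! ### Basic facts on trees and the norm -/

theorem conn : T.graph.Connected := T.isTree.1

theorem level_root : T.level T.root = 0 := by
  simp [RootedTree.level]

theorem exists_parent {v : V} (hv : T.level v ≠ 0) : ∃ u, T.IsParent u v := by
  obtain ⟨p, hp⟩ := (conn T).exists_walk_length_eq_dist T.root v
  -- consider the reversed walk
  obtain ⟨q, hq⟩ : ∃ q : T.graph.Walk v T.root, q.length = T.level v :=
    ⟨p.reverse, by rw [SimpleGraph.Walk.length_reverse, hp]; rfl⟩
  cases q with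
  | nil => simp at hq; exact absurd hq.symm hv
  | @cons _ w _ h q' =>
    refine ⟨w, h.symm, ?_⟩
    have h1 : T.level w ≤ q'.length := by
      unfold RootedTree.level
      rw [SimpleGraph.dist_comm]
      exact SimpleGraph.dist_le q'
    have h2 : T.level v ≤ T.level w + 1 := by
      unfold RootedTree.level
      have := (conn T).dist_triangle (u := T.root) (v := w) (w := v)
      have h3 : T.graph.dist w v = 1 := SimpleGraph.dist_eq_one_iff_adj.mpr h.symm
      omega
    rw [SimpleGraph.Walk.length_cons] at hq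
    omega

theorem level_eq_zero {v : V} (h : T.level v = 0) : v = T.root := by
  have := ((conn T).dist_eq_zero_iff (u := T.root) (v := v)).mp h
  exact this.symm

/-- Every vertex other than the root has exactly one parent. This is not used below; it records that
`IsParent` is the parent relation of the tree. -/
theorem existsUnique_parent {v : V} (hv : v ≠ T.root) : ∃! u, T.IsParent u v := by
  have h0 : T.level v ≠ 0 := fun h => hv (level_eq_zero T h)
  obtain ⟨u, hu⟩ := exists_parent T h0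
  refine ⟨u, hu, fun w hw => ?_⟩
  have key : ∀ x, T.IsParent x v → ∃ p : T.graph.Walk T.root v, p.IsPath ∧ p.penultimate = x := by
    intro x hx
    obtain ⟨p, hp⟩ := (conn T).exists_walk_length_eq_dist T.root x
    refine ⟨p.concat hx.1, ?_, by simp⟩
    apply SimpleGraph.Walk.isPath_of_length_eq_dist
    rw [SimpleGraph.Walk.length_concat, hp]
    exact hx.2.symm
  obtain ⟨p, hp, hpu⟩ := key u hu
  obtain ⟨q, hq, hqw⟩ := key w hw
  have h1 := (T.isTree.2.subsingleton_path T.root v).elim ⟨p, hp⟩ ⟨q, hq⟩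
  have h2 : p = q := congrArg Subtype.val h1
  rw [← hpu, ← hqw, h2]

theorem ball_finite (N : ℕ) : {v | T.level v ≤ N}.Finite := by
  induction N with
  | zero =>
    apply Set.Finite.subset (Set.finite_singleton T.root)
    intro v hv
    exact level_eq_zero T (by simpa using hv)
  | succ N ih =>
    have : {v | T.level v ≤ N + 1} ⊆
        {v | T.level v ≤ N} ∪ ⋃ u ∈ {v | T.level v ≤ N}, T.graph.neighborSet u := by
      intro v hv
      by_cases h0 : T.level v ≤ N
      · left; exact h0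
      · right
        obtain ⟨u, hu1, hu2⟩ := exists_parent T (v := v) (by omega)
        simp only [Set.mem_ofPred_eq] at hv
        simp only [Set.mem_iUnion]
        exact ⟨u, by simp only [Set.mem_ofPred_eq]; omega, hu1⟩
    refine Set.Finite.subset (ih.union (ih.biUnion fun u _ => T.locallyFinite u)) this

theorem exists_level (N : ℕ) : ∃ v, T.level v = N := by
  have := T.infinite
  -- there is a vertex at level > N
  have h1 : ∃ v, N ≤ T.level v := by
    by_contra hcon
    push Not at hcon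
    have : (Set.univ : Set V).Finite :=
      (ball_finite T N).subset (fun v _ => (hcon v).le)
    exact Set.infinite_univ this
  obtain ⟨v, hv⟩ := h1
  -- go down
  have key : ∀ k, ∀ v, T.level v = N + k → ∃ w, T.level w = N := by
    intro k
    induction k with
    | zero => intro v hv; exact ⟨v, hv⟩
    | succ k ih =>
      intro v hv
      obtain ⟨u, _, hu⟩ := exists_parent T (v := v) (by omega)
      exact ih u (by omega)
  exact key (T.level v - N) v (by omega)

/-! ### the norm -/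

/-- constructor -/
def mkL0 (f : V → ℂ) (h : f ∈ T.littleLip) : T.L0 := ⟨f, h⟩

@[simp] theorem mkL0_apply (f : V → ℂ) (h : f ∈ T.littleLip) (v : V) : mkL0 T f h v = f v := rfl

theorem bdd (f : T.L0) :
    BddAbove (Set.range fun p : {p : V × V // T.IsParent p.1 p.2} => ‖f p.1.2 - f p.1.1‖) := by
  obtain ⟨N, hN⟩ := f.2 1 one_pos
  have hfin := ball_finite T N
  obtain ⟨B, hB⟩ := (hfin.image (fun v => ‖f v‖)).bddAbove
  refine ⟨max 1 (B + B), ?_⟩
  rintro _ ⟨⟨⟨u, v⟩, huv⟩, rfl⟩
  by_cases h : N ≤ T.level v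
  · exact le_trans (hN u v huv h).le (le_max_left _ _)
  · refine le_trans ?_ (le_max_right _ _)
    have hv : ‖f v‖ ≤ B := hB ⟨v, by simp only [Set.mem_ofPred_eq]; omega, rfl⟩
    have hu : ‖f u‖ ≤ B := hB ⟨u, by
      have := huv.2
      simp only [Set.mem_ofPred_eq] at *; omega, rfl⟩
    calc ‖f v - f u‖ ≤ ‖f v‖ + ‖f u‖ := norm_sub_le _ _
      _ ≤ B + B := add_le_add hv hu

theorem norm_def' (f : T.L0) : ‖f‖ =
    max ‖f T.root‖ (⨆ p : {p : V × V // T.IsParent p.1 p.2}, ‖f p.1.2 - f p.1.1‖) := rfl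

theorem norm_root_le (f : T.L0) : ‖f T.root‖ ≤ ‖f‖ := le_max_left _ _

theorem norm_sub_le' (f : T.L0) {u v : V} (h : T.IsParent u v) : ‖f v - f u‖ ≤ ‖f‖ := by
  refine le_trans ?_ (le_max_right _ _)
  exact le_ciSup (bdd T f) ⟨(u, v), h⟩

theorem norm_le_of {f : T.L0} {C : ℝ} (hC : 0 ≤ C) (h0 : ‖f T.root‖ ≤ C)
    (h1 : ∀ u v, T.IsParent u v → ‖f v - f u‖ ≤ C) : ‖f‖ ≤ C := by
  refine max_le h0 ?_
  exact Real.iSup_le (fun p => h1 _ _ p.2) hC

theorem norm_nonneg'' (f : T.L0) : 0 ≤ ‖f‖ := le_trans (norm_nonneg _) (norm_root_le T f)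

@[simp] theorem add_apply' (f g : T.L0) (v : V) : (f + g) v = f v + g v := rfl
@[simp] theorem smul_apply' (c : ℂ) (f : T.L0) (v : V) : (c • f) v = c * f v := rfl
@[simp] theorem zero_apply' (v : V) : (0 : T.L0) v = 0 := rfl
@[simp] theorem neg_apply' (f : T.L0) (v : V) : (-f) v = -f v := rfl
@[simp] theorem sub_apply' (f g : T.L0) (v : V) : (f - g) v = f v - g v := by
  rw [sub_eq_add_neg, sub_eq_add_neg]; rfl

theorem ext' {f g : T.L0} (h : ∀ v, f v = g v) : f = g := Subtype.ext (funext h)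

theorem apply_le (f : T.L0) (v : V) : ‖f v‖ ≤ (T.level v + 1) * ‖f‖ := by
  have key : ∀ n, ∀ v, T.level v = n → ‖f v‖ ≤ (n + 1) * ‖f‖ := by
    intro n
    induction n with
    | zero =>
      intro v hv
      rw [level_eq_zero T hv]
      simpa using norm_root_le T f
    | succ n ih =>
      intro v hv
      obtain ⟨u, hu⟩ := exists_parent T (v := v) (by omega)
      have h1 := norm_sub_le' T f hu
      have h2 := ih u (by have := hu.2; omega)
      calc ‖f v‖ = ‖(f v - f u) + f u‖ := by ring_nf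
        _ ≤ ‖f v - f u‖ + ‖f u‖ := norm_add_le _ _
        _ ≤ ‖f‖ + (n + 1) * ‖f‖ := add_le_add h1 h2
        _ = ((n + 1 : ℕ) + 1) * ‖f‖ := by push_cast; ring
  exact key _ v rfl

theorem core : NormedSpace.Core ℂ T.L0 where
  norm_nonneg := norm_nonneg'' T
  norm_eq_zero_iff := by
    intro f
    constructor
    · intro h
      apply ext'
      intro v
      have := apply_le T f v
      rw [h, mul_zero] at this
      simpa using norm_le_zero_iff.mp this
    · rintro rfl
      refine le_antisymm (norm_le_of T le_rfl (by simp) (by simp)) (norm_nonneg'' T _)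
  norm_smul := by
    intro c f
    refine le_antisymm ?_ ?_
    · refine norm_le_of T (mul_nonneg (norm_nonneg _) (norm_nonneg'' T _)) ?_ ?_
      · rw [smul_apply', norm_mul]
        exact mul_le_mul_of_nonneg_left (norm_root_le T f) (norm_nonneg _)
      · intro u v huv
        rw [smul_apply', smul_apply', ← mul_sub, norm_mul]
        exact mul_le_mul_of_nonneg_left (norm_sub_le' T f huv) (norm_nonneg _)
    · by_cases hc : c = 0
      · subst hc; simp [norm_nonneg'' T]
      · have hc' : 0 < ‖c‖ := norm_pos_iff.mpr hc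
        rw [← le_div_iff₀' hc']
        refine norm_le_of T (div_nonneg (norm_nonneg'' T _) hc'.le) ?_ ?_
        · rw [le_div_iff₀' hc', ← norm_mul, ← smul_apply']
          exact norm_root_le T _
        · intro u v huv
          rw [le_div_iff₀' hc', ← norm_mul, mul_sub, ← smul_apply', ← smul_apply']
          exact norm_sub_le' T _ huv
  norm_triangle := by
    intro f g
    refine norm_le_of T (add_nonneg (norm_nonneg'' T _) (norm_nonneg'' T _)) ?_ ?_
    · rw [add_apply']
      exact le_trans (norm_add_le _ _) (add_le_add (norm_root_le T f) (norm_root_le T g))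
    · intro u v huv
      have : (f + g) v - (f + g) u = (f v - f u) + (g v - g u) := by
        rw [add_apply', add_apply']; ring
      rw [this]
      exact le_trans (norm_add_le _ _) (add_le_add (norm_sub_le' T f huv) (norm_sub_le' T g huv))

noncomputable instance : NormedAddCommGroup T.L0 := NormedAddCommGroup.ofCore (core T)

noncomputable instance : NormedSpace ℂ T.L0 := NormedSpace.ofCore (core T)

noncomputable instance : CompleteSpace T.L0 := by
  apply Metric.complete_of_cauchySeq_tendsto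
  intro w hw
  have hpt : ∀ v, ∃ l : ℂ, Tendsto (fun n => w n v) atTop (𝓝 l) := by
    intro v
    apply cauchySeq_tendsto_of_complete
    rw [Metric.cauchySeq_iff] at hw ⊢
    intro ε hε
    obtain ⟨N, hN⟩ := hw (ε / (T.level v + 1)) (by positivity)
    refine ⟨N, fun m hm n hn => ?_⟩
    have h1 := hN m hm n hn
    rw [dist_eq_norm] at h1 ⊢
    rw [← sub_apply']
    calc ‖(w m - w n) v‖ ≤ (T.level v + 1) * ‖w m - w n‖ := apply_le T _ v
      _ < (T.level v + 1) * (ε / (T.level v + 1)) := by gcongr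
      _ = ε := by field_simp
  choose l hl using hpt
  have key : ∀ ε > 0, ∃ N, ∀ n ≥ N, ‖w n T.root - l T.root‖ ≤ ε ∧
      ∀ u v, T.IsParent u v → ‖(w n v - l v) - (w n u - l u)‖ ≤ ε := by
    intro ε hε
    rw [Metric.cauchySeq_iff] at hw
    obtain ⟨N, hN⟩ := hw ε hε
    refine ⟨N, fun n hn => ⟨?_, ?_⟩⟩
    · have h1 : Tendsto (fun m => ‖w n T.root - w m T.root‖) atTop (𝓝 ‖w n T.root - l T.root‖) :=
        (tendsto_const_nhds.sub (hl T.root)).norm
      refine le_of_tendsto h1 ?_
      filter_upwards [eventually_ge_atTop N] with m hm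
      rw [← sub_apply']
      have := hN n hn m hm
      rw [dist_eq_norm] at this
      exact le_trans (norm_root_le T _) this.le
    · intro u v huv
      have h1 : Tendsto (fun m => ‖(w n v - w m v) - (w n u - w m u)‖) atTop
          (𝓝 ‖(w n v - l v) - (w n u - l u)‖) :=
        ((tendsto_const_nhds.sub (hl v)).sub (tendsto_const_nhds.sub (hl u))).norm
      refine le_of_tendsto h1 ?_
      filter_upwards [eventually_ge_atTop N] with m hm
      rw [← sub_apply', ← sub_apply']
      have := hN n hn m hm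
      rw [dist_eq_norm] at this
      exact le_trans (norm_sub_le' T _ huv) this.le
  have hmem : l ∈ T.littleLip := by
    intro ε hε
    obtain ⟨N, hN⟩ := key (ε / 2) (by positivity)
    obtain ⟨_, h2⟩ := hN N le_rfl
    obtain ⟨M, hM⟩ := (w N).2 (ε / 2) (by positivity)
    refine ⟨M, fun u v huv hv => ?_⟩
    have h3 := h2 u v huv
    have h4 := hM u v huv hv
    have : l v - l u = ((w N) v - (w N) u) - (((w N) v - l v) - ((w N) u - l u)) := by ring
    rw [this]
    calc ‖((w N) v - (w N) u) - (((w N) v - l v) - ((w N) u - l u))‖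
        ≤ ‖(w N) v - (w N) u‖ + ‖((w N) v - l v) - ((w N) u - l u)‖ := norm_sub_le _ _
      _ < ε := by
        have h5 : ‖(w N) v - (w N) u‖ < ε / 2 := h4
        linarith
  refine ⟨mkL0 T l hmem, ?_⟩
  rw [Metric.tendsto_atTop]
  intro ε hε
  obtain ⟨N, hN⟩ := key (ε / 2) (by positivity)
  refine ⟨N, fun n hn => ?_⟩
  rw [dist_eq_norm]
  obtain ⟨h1, h2⟩ := hN n hn
  refine lt_of_le_of_lt (norm_le_of T (C := ε / 2) (by positivity) ?_ ?_) (by linarith)
  · rw [sub_apply']; exact h1
  · intro u v huv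
    rw [sub_apply', sub_apply']; exact h2 u v huv

section Abstract

/-! ### An abstract construction of hypercyclic subspaces -/

/-- `x` is a hypercyclic vector of `A`. -/
def AbsHypercyclicVector {X : Type*} [NormedAddCommGroup X] [NormedSpace ℂ X]
    (A : X →L[ℂ] X) (x : X) : Prop :=
  Dense (Set.range fun n : ℕ => (A ^ n) x)

/-- `A` has a hypercyclic subspace. -/
def AbsHypercyclicSubspace {X : Type*} [NormedAddCommGroup X] [NormedSpace ℂ X]
    (A : X →L[ℂ] X) : Prop :=
  ∃ M : Submodule ℂ X, IsClosed (M : Set X) ∧ ¬ FiniteDimensional ℂ M ∧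
    ∀ x ∈ M, x ≠ 0 → AbsHypercyclicVector A x

variable {X : Type*} [NormedAddCommGroup X] [NormedSpace ℂ X]

theorem exists_seq (A : X →L[ℂ] X)
    (hstage : ∀ (k : ℕ) (x : ℕ → X) (y : X) (ε : ℝ), 0 < ε →
      ∃ (n : ℕ) (x' : ℕ → X) (g : X), (∀ i < k, ‖x' i - x i‖ < ε ∧ ‖(A ^ n) (x' i)‖ < ε) ∧
        ‖g‖ < ε ∧ ‖(A ^ n) g - y‖ < ε)
    (e : ℕ → X) (jj : ℕ → ℕ) (yy : ℕ → X) :
    ∃ (Z : ℕ → ℕ → X) (ε : ℕ → ℝ) (n : ℕ → ℕ), Z 0 = e ∧ ε 0 = 1 / 8 ∧ (∀ k, 0 < ε k) ∧
      (∀ k, ε (k + 1) = ε k / (4 * (1 + ‖A ^ (n k)‖))) ∧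
      (∀ k i, k < i → Z (k + 1) i = Z k i) ∧
      (∀ k i, ‖Z (k + 1) i - Z k i‖ ≤ 2 * ε k) ∧
      (∀ k i, i ≤ k → ‖(A ^ (n k)) (Z (k + 1) i) - (if i = jj k then yy k else 0)‖ ≤ 2 * ε k) := by
  choose! N X' G h1 h2 h3 using hstage
  let S : ℕ → (ℕ → X) × ℝ := fun k => Nat.rec (e, 1 / 8)
    (fun k s => (fun i => if i ≤ k then X' (k + 1) s.1 (yy k) s.2 i +
        (if i = jj k then G (k + 1) s.1 (yy k) s.2 else 0) else s.1 i,
      s.2 / (4 * (1 + ‖A ^ (N (k + 1) s.1 (yy k) s.2)‖)))) k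
  have hS : ∀ k, S (k + 1) = (fun i => if i ≤ k then X' (k + 1) (S k).1 (yy k) (S k).2 i +
        (if i = jj k then G (k + 1) (S k).1 (yy k) (S k).2 else 0) else (S k).1 i,
      (S k).2 / (4 * (1 + ‖A ^ (N (k + 1) (S k).1 (yy k) (S k).2)‖))) := fun k => rfl
  have hpos : ∀ k, 0 < (S k).2 := by
    intro k
    induction k with
    | zero => change (0 : ℝ) < 1 / 8; norm_num
    | succ k ih => rw [hS]; positivity
  refine ⟨fun k => (S k).1, fun k => (S k).2, fun k => N (k + 1) (S k).1 (yy k) (S k).2,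
    rfl, rfl, hpos, fun k => rfl, ?_, ?_, ?_⟩
  · intro k i hi
    change (S (k + 1)).1 i = (S k).1 i
    rw [hS]
    simp [not_le.mpr hi]
  · intro k i
    change ‖(S (k + 1)).1 i - (S k).1 i‖ ≤ 2 * (S k).2
    rw [hS]
    by_cases hi : i ≤ k
    · have a1 := (h1 (k + 1) (S k).1 (yy k) (S k).2 (hpos k) i (by omega)).1
      have a2 := h2 (k + 1) (S k).1 (yy k) (S k).2 (hpos k)
      simp only [hi, if_true]
      by_cases hj : i = jj k
      · simp only [hj, if_true]
        rw [hj] at a1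
        calc _ = ‖(X' (k + 1) (S k).1 (yy k) (S k).2 (jj k) - (S k).1 (jj k)) +
              G (k + 1) (S k).1 (yy k) (S k).2‖ := by congr 1; abel
          _ ≤ _ := norm_add_le _ _
          _ ≤ _ := by linarith
      · simp only [hj, if_false, add_zero]
        linarith [hpos k]
    · simp only [hi, if_false, sub_self, norm_zero]
      linarith [hpos k]
  · intro k i hi
    change ‖(A ^ (N (k + 1) (S k).1 (yy k) (S k).2)) ((S (k + 1)).1 i) -
      (if i = jj k then yy k else 0)‖ ≤ 2 * (S k).2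
    rw [hS]
    have a1 := (h1 (k + 1) (S k).1 (yy k) (S k).2 (hpos k) i (by omega)).2
    have a2 := h3 (k + 1) (S k).1 (yy k) (S k).2 (hpos k)
    simp only [hi, if_true]
    by_cases hj : i = jj k
    · simp only [hj, if_true, map_add]
      rw [hj] at a1
      calc _ = ‖(A ^ (N (k + 1) (S k).1 (yy k) (S k).2)) (X' (k + 1) (S k).1 (yy k) (S k).2 (jj k)) +
              ((A ^ (N (k + 1) (S k).1 (yy k) (S k).2)) (G (k + 1) (S k).1 (yy k) (S k).2)
                - yy k)‖ := by congr 1; abel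
          _ ≤ _ := norm_add_le _ _
          _ ≤ _ := by linarith
    · simp only [hj, if_false, add_zero, sub_zero]
      linarith [hpos k]

/-- the unit vectors of `c₀` -/
noncomputable def sgl (i : ℕ) : C₀(ℕ, ℂ) where
  toFun := Pi.single i 1
  continuous_toFun := continuous_of_discreteTopology
  zero_at_infty' := by
    rw [cocompact_eq_atTop]
    refine tendsto_const_nhds.congr' ?_
    filter_upwards [eventually_gt_atTop i] with j hj
    rw [Pi.single_eq_of_ne (by omega)]

theorem sgl_apply (i j : ℕ) : sgl i j = if j = i then 1 else 0 := by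
  change (Pi.single i (1 : ℂ) : ℕ → ℂ) j = _
  rw [Pi.single_apply]

theorem coe_le_norm (a : C₀(ℕ, ℂ)) (i : ℕ) : ‖a i‖ ≤ ‖a‖ := by
  rw [← ZeroAtInftyContinuousMap.norm_toBCF_eq_norm]
  exact a.toBCF.norm_coe_le_norm i

theorem norm_le_of_forall (a : C₀(ℕ, ℂ)) {C : ℝ} (hC : 0 ≤ C) (h : ∀ i, ‖a i‖ ≤ C) : ‖a‖ ≤ C := by
  rw [← ZeroAtInftyContinuousMap.norm_toBCF_eq_norm]
  exact (BoundedContinuousFunction.norm_le hC).2 h

theorem tendsto_coe (a : C₀(ℕ, ℂ)) : Tendsto (fun i => a i) atTop (𝓝 0) := by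
  have := a.zero_at_infty'
  rw [cocompact_eq_atTop] at this
  exact this

/-- truncation -/
noncomputable def trunc (k : ℕ) (a : C₀(ℕ, ℂ)) : C₀(ℕ, ℂ) :=
  ∑ i ∈ Finset.range (k + 1), a i • sgl i

theorem coe_sum (s : Finset ℕ) (g : ℕ → C₀(ℕ, ℂ)) (j : ℕ) :
    (∑ i ∈ s, g i) j = ∑ i ∈ s, g i j := by
  classical
  induction s using Finset.induction_on with
  | empty => simp
  | insert a s ha ih => rw [Finset.sum_insert ha, Finset.sum_insert ha,
      ZeroAtInftyContinuousMap.add_apply, ih]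

theorem trunc_apply (k : ℕ) (a : C₀(ℕ, ℂ)) (j : ℕ) :
    trunc k a j = if j ≤ k then a j else 0 := by
  rw [trunc, coe_sum]
  simp only [ZeroAtInftyContinuousMap.smul_apply, sgl_apply, smul_eq_mul, mul_ite, mul_one,
    mul_zero, Finset.sum_ite_eq, Finset.mem_range, Nat.lt_succ_iff]

theorem tendsto_trunc (a : C₀(ℕ, ℂ)) : Tendsto (fun k => ‖a - trunc k a‖) atTop (𝓝 0) := by
  rw [Metric.tendsto_atTop]
  intro ε hε
  have h := tendsto_coe a
  rw [Metric.tendsto_atTop] at h
  obtain ⟨N, hN⟩ := h (ε / 2) (by positivity)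
  refine ⟨N, fun k hk => ?_⟩
  rw [dist_zero_right, norm_norm]
  refine lt_of_le_of_lt (norm_le_of_forall _ (C := ε / 2) (by positivity) fun j => ?_)
    (by linarith)
  rw [ZeroAtInftyContinuousMap.sub_apply, trunc_apply]
  by_cases hj : j ≤ k
  · simp [hj]; positivity
  · simp only [hj, if_false, sub_zero]
    have := hN j (by omega)
    rw [dist_zero_right] at this
    exact this.le

theorem infinite_dimensional : ¬ FiniteDimensional ℂ C₀(ℕ, ℂ) := by
  intro h
  have hli : LinearIndependent ℂ sgl := by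
    rw [linearIndependent_iff']
    intro s g hg i hi
    have := congrArg (fun f : C₀(ℕ, ℂ) => f i) hg
    simp only [coe_sum, ZeroAtInftyContinuousMap.smul_apply, sgl_apply, smul_eq_mul, mul_ite,
      mul_one, mul_zero, Finset.sum_ite_eq, hi, if_true, ZeroAtInftyContinuousMap.zero_apply]
      at this
    exact this
  exact hli.finite.not_infinite inferInstance

theorem hasHypercyclicSubspace [CompleteSpace X] [SeparableSpace X] (A : X →L[ℂ] X)
    (hstage : ∀ (k : ℕ) (x : ℕ → X) (y : X) (ε : ℝ), 0 < ε →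
      ∃ (n : ℕ) (x' : ℕ → X) (g : X), (∀ i < k, ‖x' i - x i‖ < ε ∧ ‖(A ^ n) (x' i)‖ < ε) ∧
        ‖g‖ < ε ∧ ‖(A ^ n) g - y‖ < ε)
    (J : C₀(ℕ, ℂ) →ₗ[ℂ] X) (hJ1 : ∀ a, ‖a‖ ≤ ‖J a‖) (K : ℝ)
    (hJ2 : ∀ (n : ℕ) (a : C₀(ℕ, ℂ)), ‖(A ^ n) (J a)‖ ≤ K * ‖a‖) :
    AbsHypercyclicSubspace A := by
  obtain ⟨Z, ε, n, hZ0, hε0, hεpos, hεs, hZlt, hZd, hZA⟩ := exists_seq A hstage
    (fun i => J (sgl i)) (fun k => (Nat.unpair k).1)
    (fun k => denseSeq X (Nat.unpair (Nat.unpair k).2).1)
  -- decay of ε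
  have hεs' : ∀ k, ε (k + 1) ≤ ε k * (1 / 4) := by
    intro k
    rw [hεs]
    rw [div_le_iff₀ (by positivity)]
    nlinarith [hεpos k, norm_nonneg (A ^ (n k)), mul_nonneg (hεpos k).le (norm_nonneg (A ^ (n k)))]
  have hεA : ∀ k, ‖A ^ (n k)‖ * ε (k + 1) ≤ ε k / 4 := by
    intro k
    rw [hεs, mul_div_assoc', div_le_div_iff₀ (by positivity) (by norm_num)]
    nlinarith [hεpos k, norm_nonneg (A ^ (n k)), mul_nonneg (hεpos k).le (norm_nonneg (A ^ (n k)))]
  have hεm : ∀ k m, ε (k + m) ≤ ε k * (1 / 4) ^ m := by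
    intro k m
    induction m with
    | zero => simp
    | succ m ih =>
      calc ε (k + (m + 1)) = ε (k + m + 1) := rfl
        _ ≤ ε (k + m) * (1 / 4) := hεs' _
        _ ≤ (ε k * (1 / 4) ^ m) * (1 / 4) := by gcongr
        _ = ε k * (1 / 4) ^ (m + 1) := by ring
  have hεk : ∀ k, ε k ≤ 1 / 8 * (1 / 4) ^ k := by
    intro k
    have := hεm 0 k
    rwa [zero_add, hε0] at this
  -- the limits
  have hcau : ∀ i, ∃ l, Tendsto (fun k => Z k i) atTop (𝓝 l) := by
    intro i
    apply cauchySeq_tendsto_of_complete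
    refine cauchySeq_of_le_geometric (1 / 4) (2 * (1 / 8)) (by norm_num) (fun k => ?_)
    rw [dist_comm, dist_eq_norm]
    refine le_trans (hZd k i) ?_
    nlinarith [hεk k]
  choose f hf using hcau
  have hfZ : ∀ k i, ‖f i - Z k i‖ ≤ 3 * ε k := by
    intro k i
    have h1 : Tendsto (fun m => Z (k + m) i) atTop (𝓝 (f i)) := by
      have := (hf i).comp (tendsto_add_atTop_nat k)
      refine this.congr (fun m => ?_)
      simp [Nat.add_comm]
    have h2 := dist_le_of_le_geometric_of_tendsto₀ (1 / 4) (2 * ε k)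
      (f := fun m => Z (k + m) i) (a := f i) (by norm_num) (fun m => ?_) h1
    · rw [dist_comm, dist_eq_norm] at h2
      refine le_trans h2 ?_
      have := hεpos k
      norm_num
      linarith
    · rw [dist_comm, dist_eq_norm]
      calc ‖Z (k + (m + 1)) i - Z (k + m) i‖ ≤ 2 * ε (k + m) := hZd (k + m) i
        _ ≤ 2 * (ε k * (1 / 4) ^ m) := by gcongr; exact hεm k m
        _ = 2 * ε k * (1 / 4) ^ m := by ring
  have hZe : ∀ i k, k ≤ i → Z k i = J (sgl i) := by
    intro i k
    induction k with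
    | zero => intro _; rw [hZ0]
    | succ k ih => intro hk; rw [hZlt k i (by omega), ih (by omega)]
  set d : ℕ → X := fun i => f i - J (sgl i) with hd
  have hdn : ∀ i, ‖d i‖ ≤ 3 * ε i := by
    intro i
    have := hfZ i i
    rwa [hZe i i le_rfl] at this
  have hdn' : ∀ i, ‖d i‖ ≤ 3 / 8 * (1 / 4) ^ i := fun i => by
    linarith [hdn i, hεk i]
  have hgeo : HasSum (fun i : ℕ => (3 / 8 : ℝ) * (1 / 4) ^ i) (1 / 2) := by
    have := (hasSum_geometric_of_lt_one (r := (1 / 4 : ℝ)) (by norm_num) (by norm_num)).mul_left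
      (3 / 8 : ℝ)
    have h : (1 / 2 : ℝ) = 3 / 8 * (1 - 1 / 4)⁻¹ := by norm_num
    rw [h]
    exact this
  have hbd : ∀ (a : C₀(ℕ, ℂ)) i, ‖a i • d i‖ ≤ ‖a‖ * (3 / 8 * (1 / 4) ^ i) := by
    intro a i
    rw [norm_smul]
    exact mul_le_mul (coe_le_norm a i) (hdn' i) (norm_nonneg _) (norm_nonneg _)
  have hsum : ∀ a : C₀(ℕ, ℂ), Summable (fun i => a i • d i) := fun a =>
    Summable.of_norm_bounded (hgeo.summable.mul_left ‖a‖) (hbd a)
  let R : C₀(ℕ, ℂ) →ₗ[ℂ] X :=
    { toFun := fun a => ∑' i, a i • d i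
      map_add' := by
        intro a b
        rw [← (hsum a).tsum_add (hsum b)]
        congr 1; ext i
        rw [ZeroAtInftyContinuousMap.add_apply, add_smul]
      map_smul' := by
        intro c a
        rw [RingHom.id_apply, ← (hsum a).tsum_const_smul]
        congr 1; ext i
        rw [ZeroAtInftyContinuousMap.smul_apply, smul_smul, smul_eq_mul] }
  have hR : ∀ a, R a = ∑' i, a i • d i := fun a => rfl
  have hRn : ∀ a, ‖R a‖ ≤ 1 / 2 * ‖a‖ := by
    intro a
    rw [hR, mul_comm]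
    exact tsum_of_norm_bounded (hgeo.mul_left ‖a‖) (hbd a)
  let F0 : C₀(ℕ, ℂ) →ₗ[ℂ] X := J + R
  have hF0 : ∀ a, F0 a = J a + R a := fun a => rfl
  have hJb : ∀ a, ‖J a‖ ≤ K * ‖a‖ := fun a => by simpa using hJ2 0 a
  have hup : ∀ a, ‖F0 a‖ ≤ (K + 1 / 2) * ‖a‖ := by
    intro a
    rw [hF0]
    calc ‖J a + R a‖ ≤ ‖J a‖ + ‖R a‖ := norm_add_le _ _
      _ ≤ K * ‖a‖ + 1 / 2 * ‖a‖ := add_le_add (hJb a) (hRn a)
      _ = _ := by ring
  let F : C₀(ℕ, ℂ) →L[ℂ] X := F0.mkContinuous (K + 1 / 2) hup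
  have hF : ∀ a, F a = J a + R a := fun a => rfl
  have hlow : ∀ a, ‖a‖ ≤ (2 : NNReal) * ‖F a‖ := by
    intro a
    have h1 : ‖J a‖ ≤ ‖F a‖ + ‖R a‖ := by
      have : J a = F a - R a := by rw [hF]; abel
      rw [this]; exact norm_sub_le _ _
    have h2 := hRn a
    have h3 := hJ1 a
    push_cast
    linarith
  have hanti : AntilipschitzWith 2 F := F.antilipschitz_of_bound hlow
  refine ⟨LinearMap.range F.toLinearMap, ?_, ?_, ?_⟩
  · have := hanti.isClosed_range F.uniformContinuous
    convert this using 1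
    ext x; simp
  · intro hfd
    have hinj : Function.Injective F.toLinearMap := hanti.injective
    have : FiniteDimensional ℂ C₀(ℕ, ℂ) :=
      (LinearEquiv.ofInjective F.toLinearMap hinj).symm.finiteDimensional
    exact infinite_dimensional this
  · rintro x ⟨a, rfl⟩ hx
    have ha : a ≠ 0 := by
      rintro rfl
      exact hx (map_zero _)
    obtain ⟨j, hj⟩ : ∃ j, a j ≠ 0 := by
      by_contra hcon
      push Not at hcon
      exact ha (ZeroAtInftyContinuousMap.ext (fun i => by simpa using hcon i))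
    -- main estimate
    have hmain : ∀ k, ‖(A ^ (n k)) (F a) -
        a (Nat.unpair k).1 • denseSeq X (Nat.unpair (Nat.unpair k).2).1‖ ≤
        K * ‖a - trunc k a‖ + ‖a‖ * (3 * k + 4) * ε k := by
      intro k
      set B := A ^ (n k) with hB
      set y := denseSeq X (Nat.unpair (Nat.unpair k).2).1 with hy
      have e1 : J a = J (a - trunc k a) + ∑ i ∈ Finset.range (k + 1), a i • J (sgl i) := by
        rw [map_sub, trunc, map_sum]
        simp only [map_smul]
        abel
      have e2 : R a = ∑ i ∈ Finset.range (k + 1), a i • d i +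
          ∑' i, a (i + (k + 1)) • d (i + (k + 1)) := by
        rw [hR]
        exact ((hsum a).sum_add_tsum_nat_add (k + 1)).symm
      have e3 : a (Nat.unpair k).1 • y = ∑ i ∈ Finset.range (k + 1),
          a i • (if i = (Nat.unpair k).1 then y else 0) := by
        simp only [smul_ite, smul_zero]
        rw [Finset.sum_ite_eq']
        rw [if_pos]
        rw [Finset.mem_range, Nat.lt_succ_iff]
        exact Nat.unpair_left_le k
      have hsk : Summable (fun i => a (i + (k + 1)) • d (i + (k + 1))) :=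
        (summable_nat_add_iff (f := fun i => a i • d i) (k + 1)).2 (hsum a)
      have e4 : B (F a) - a (Nat.unpair k).1 • y = B (J (a - trunc k a)) +
          (∑ i ∈ Finset.range (k + 1), a i • (B (f i) - (if i = (Nat.unpair k).1 then y else 0))
            + ∑' i, a (i + (k + 1)) • B (d (i + (k + 1)))) := by
        rw [hF, e1, e2, e3, map_add, map_add, map_add, map_sum, map_sum, B.map_tsum hsk]
        simp only [map_smul]
        have : ∀ i, a i • (B (f i) - (if i = (Nat.unpair k).1 then y else 0)) =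
            a i • B (J (sgl i)) + a i • B (d i) -
              a i • (if i = (Nat.unpair k).1 then y else 0) := by
          intro i
          rw [hd]
          simp only [map_sub, smul_sub]
          abel
        simp only [this]
        rw [Finset.sum_sub_distrib, Finset.sum_add_distrib]
        abel
      rw [e4]
      have b1 : ‖B (J (a - trunc k a))‖ ≤ K * ‖a - trunc k a‖ := hJ2 _ _
      have b2 : ∀ i ∈ Finset.range (k + 1),
          ‖a i • (B (f i) - (if i = (Nat.unpair k).1 then y else 0))‖ ≤ ‖a‖ * (3 * ε k) := by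
        intro i hi
        rw [Finset.mem_range, Nat.lt_succ_iff] at hi
        rw [norm_smul]
        refine mul_le_mul (coe_le_norm a i) ?_ (norm_nonneg _) (norm_nonneg _)
        have c1 : B (f i) - (if i = (Nat.unpair k).1 then y else 0) =
            B (f i - Z (k + 1) i) + (B (Z (k + 1) i) - (if i = (Nat.unpair k).1 then y else 0)) := by
          rw [map_sub]; abel
        rw [c1]
        have c2 : ‖B (f i - Z (k + 1) i)‖ ≤ 3 / 4 * ε k := by
          calc ‖B (f i - Z (k + 1) i)‖ ≤ ‖B‖ * ‖f i - Z (k + 1) i‖ := B.le_opNorm _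
            _ ≤ ‖B‖ * (3 * ε (k + 1)) := by gcongr; exact hfZ (k + 1) i
            _ = 3 * (‖B‖ * ε (k + 1)) := by ring
            _ ≤ 3 * (ε k / 4) := by gcongr; exact hεA k
            _ = _ := by ring
        have c3 := hZA k i hi
        refine le_trans (norm_add_le _ _) ?_
        have := hεpos k
        linarith
      have b3 : ‖∑ i ∈ Finset.range (k + 1),
          a i • (B (f i) - (if i = (Nat.unpair k).1 then y else 0))‖ ≤
            (k + 1) * (‖a‖ * (3 * ε k)) := by
        refine le_trans (norm_sum_le_of_le _ b2) ?_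
        rw [Finset.sum_const, Finset.card_range, nsmul_eq_mul]
        push_cast
        exact le_rfl
      have b4 : ‖∑' i, a (i + (k + 1)) • B (d (i + (k + 1)))‖ ≤ ‖a‖ * ε k := by
        have hs : HasSum (fun i : ℕ => ‖a‖ * (3 / 4 * ε k) * (1 / 4) ^ i) (‖a‖ * ε k) := by
          have := (hasSum_geometric_of_lt_one (r := (1 / 4 : ℝ)) (by norm_num)
            (by norm_num)).mul_left (‖a‖ * (3 / 4 * ε k))
          have h : ‖a‖ * ε k = ‖a‖ * (3 / 4 * ε k) * (1 - 1 / 4)⁻¹ := by
            norm_num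
            ring
          rw [h]
          exact this
        refine tsum_of_norm_bounded hs (fun i => ?_)
        rw [norm_smul, mul_assoc ‖a‖]
        refine mul_le_mul (coe_le_norm a _) ?_ (norm_nonneg _) (norm_nonneg _)
        calc ‖B (d (i + (k + 1)))‖ ≤ ‖B‖ * ‖d (i + (k + 1))‖ := B.le_opNorm _
          _ ≤ ‖B‖ * (3 * ε (i + (k + 1))) := by gcongr; exact hdn _
          _ ≤ ‖B‖ * (3 * (ε (k + 1) * (1 / 4) ^ i)) := by
            gcongr
            rw [Nat.add_comm]
            exact hεm (k + 1) i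
          _ = 3 * (‖B‖ * ε (k + 1)) * (1 / 4) ^ i := by ring
          _ ≤ 3 * (ε k / 4) * (1 / 4) ^ i := by gcongr; exact hεA k
          _ = _ := by ring
      refine le_trans (norm_add_le _ _) ?_
      refine le_trans (add_le_add b1 (norm_add_le _ _)) ?_
      have : ‖a‖ * (3 * k + 4) * ε k = (k + 1) * (‖a‖ * (3 * ε k)) + ‖a‖ * ε k := by ring
      rw [this]
      linarith
    have hlim : Tendsto (fun k : ℕ => K * ‖a - trunc k a‖ + ‖a‖ * (3 * k + 4) * ε k) atTop
        (𝓝 0) := by
      have t1 : Tendsto (fun k : ℕ => K * ‖a - trunc k a‖) atTop (𝓝 0) := by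
        simpa using (tendsto_trunc a).const_mul K
      have t2 : Tendsto (fun k : ℕ => ‖a‖ * (3 * k + 4) * ε k) atTop (𝓝 0) := by
        have t3 : Tendsto (fun k : ℕ => ‖a‖ * (1 / 2 : ℝ) ^ k) atTop (𝓝 0) := by
          simpa using (tendsto_pow_atTop_nhds_zero_of_lt_one (r := (1 / 2 : ℝ))
            (by norm_num) (by norm_num)).const_mul ‖a‖
        refine squeeze_zero (fun k => ?_) (fun k => ?_) t3
        · have := hεpos k
          positivity
        · have h1 := hεk k
          have h2 : (3 * (k : ℝ) + 4) / 8 ≤ 2 ^ k := by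
            clear * -
            induction k with
            | zero => norm_num
            | succ k ih =>
              push_cast
              have : (1 : ℝ) ≤ 2 ^ k := one_le_pow₀ (by norm_num)
              rw [pow_succ]
              linarith
          have h3 : (3 * (k : ℝ) + 4) * ε k ≤ (1 / 2) ^ k := by
            calc (3 * (k : ℝ) + 4) * ε k ≤ (3 * (k : ℝ) + 4) * (1 / 8 * (1 / 4) ^ k) := by
                  gcongr
              _ = (3 * (k : ℝ) + 4) / 8 * (1 / 4) ^ k := by ring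
              _ ≤ 2 ^ k * (1 / 4) ^ k := by gcongr
              _ = (1 / 2) ^ k := by rw [← mul_pow]; norm_num
          calc ‖a‖ * (3 * (k : ℝ) + 4) * ε k = ‖a‖ * ((3 * (k : ℝ) + 4) * ε k) := by ring
            _ ≤ ‖a‖ * (1 / 2) ^ k := by gcongr
      simpa using t1.add t2
    -- conclusion
    unfold AbsHypercyclicVector
    rw [Metric.dense_iff]
    intro y r hr
    have hj' : 0 < ‖a j‖ := norm_pos_iff.mpr hj
    obtain ⟨l, hl⟩ := (denseRange_denseSeq X).exists_dist_lt ((a j)⁻¹ • y)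
      (ε := r / (2 * ‖a j‖)) (by positivity)
    rw [Metric.tendsto_atTop] at hlim
    obtain ⟨N, hN⟩ := hlim (r / 2) (by positivity)
    set k := Nat.pair j (Nat.pair l N) with hk
    have hkN : N ≤ k := le_trans (Nat.right_le_pair l N) (Nat.right_le_pair j _)
    have h1 := hN k hkN
    have h2 := hmain k
    have e1 : (Nat.unpair k).1 = j := by rw [hk, Nat.unpair_pair]
    have e2 : (Nat.unpair (Nat.unpair k).2).1 = l := by
      rw [hk, Nat.unpair_pair]
      simp only [Nat.unpair_pair]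
    rw [e1, e2] at h2
    rw [dist_zero_right] at h1
    have h3 := lt_of_le_of_lt (le_trans h2 (le_abs_self _)) h1
    refine ⟨(A ^ (n k)) (F a), ?_, ⟨n k, rfl⟩⟩
    rw [Metric.mem_ball, dist_eq_norm]
    have h4 : ‖a j • denseSeq X l - y‖ < r / 2 := by
      have : a j • denseSeq X l - y = a j • (denseSeq X l - (a j)⁻¹ • y) := by
        rw [smul_sub, smul_smul, mul_inv_cancel₀ hj, one_smul]
      rw [this, norm_smul]
      rw [dist_comm, dist_eq_norm] at hl
      calc ‖a j‖ * ‖denseSeq X l - (a j)⁻¹ • y‖ < ‖a j‖ * (r / (2 * ‖a j‖)) := by gcongr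
        _ = r / 2 := by field_simp
    calc ‖(A ^ (n k)) (F a) - y‖ = ‖((A ^ (n k)) (F a) - a j • denseSeq X l) +
          (a j • denseSeq X l - y)‖ := by congr 1; abel
      _ ≤ _ := norm_add_le _ _
      _ < r := by linarith

end Abstract

/-! ### Composition with Lipschitz functions, finitely supported functions -/

theorem comp_mem {H : ℂ → ℂ} (hH : ∃ K : NNReal, LipschitzWith K H) (f : T.L0) :
    (fun v => H (f v)) ∈ T.littleLip := by
  obtain ⟨K, hK⟩ := hH
  intro ε hε
  obtain ⟨N, hN⟩ := f.2 (ε / (K + 1)) (by positivity)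
  refine ⟨N, fun u v huv hv => ?_⟩
  have h1 : ‖f v - f u‖ < ε / (K + 1) := hN u v huv hv
  have h2 := hK.dist_le_mul (f v) (f u)
  rw [dist_eq_norm, dist_eq_norm] at h2
  calc ‖H (f v) - H (f u)‖ ≤ K * ‖f v - f u‖ := h2
    _ ≤ (K + 1) * ‖f v - f u‖ := by gcongr; linarith
    _ < (K + 1) * (ε / (K + 1)) := by gcongr
    _ = ε := by field_simp

/-- composition with a Lipschitz function -/
noncomputable def compL (H : ℂ → ℂ) (hH : ∃ K : NNReal, LipschitzWith K H) (f : T.L0) : T.L0 :=
  mkL0 T (fun v => H (f v)) (comp_mem T hH f)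

@[simp] theorem compL_apply (H : ℂ → ℂ) (hH : ∃ K : NNReal, LipschitzWith K H) (f : T.L0) (v : V) :
    compL T H hH f v = H (f v) := rfl

theorem comp_unif (y : T.L0) (K : NNReal) {ε : ℝ} (hε : 0 < ε) :
    ∃ δ > 0, ∀ g : T.L0, ‖g - y‖ < δ → ∀ (H : ℂ → ℂ) (hH : LipschitzWith K H),
      ‖compL T H ⟨K, hH⟩ g - compL T H ⟨K, hH⟩ y‖ ≤ ε := by
  obtain ⟨N, hN⟩ := y.2 (ε / (4 * (K + 1))) (by positivity)
  refine ⟨ε / (4 * (K + 1) * (N + 1)), by positivity, fun g hg H hH => ?_⟩
  have hK : (0 : ℝ) ≤ K := K.2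
  have hKd : (K : ℝ) * (ε / (4 * (K + 1))) ≤ ε / 4 := by
    rw [mul_div_assoc', div_le_div_iff₀ (by positivity) (by norm_num)]
    nlinarith
  have hδ : ε / (4 * (K + 1) * (N + 1)) ≤ ε / (4 * (K + 1)) := by
    apply div_le_div_of_nonneg_left hε.le (by positivity)
    have : (0 : ℝ) ≤ N := Nat.cast_nonneg N
    nlinarith
  have hKe : (K : ℝ) * ‖g - y‖ ≤ ε / 4 := by
    refine le_trans ?_ hKd
    gcongr
    exact hg.le.trans hδ
  have hL : ∀ z w, ‖H z - H w‖ ≤ K * ‖z - w‖ := by
    intro z w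
    have := hH.dist_le_mul z w
    rwa [dist_eq_norm, dist_eq_norm] at this
  refine norm_le_of T hε.le ?_ ?_
  · rw [sub_apply', compL_apply, compL_apply]
    refine le_trans (hL _ _) ?_
    rw [← sub_apply']
    have : ‖(g - y) T.root‖ ≤ ‖g - y‖ := norm_root_le T _
    calc (K : ℝ) * ‖(g - y) T.root‖ ≤ K * ‖g - y‖ := by gcongr
      _ ≤ ε := by linarith
  · intro u v huv
    rw [sub_apply', compL_apply, compL_apply, sub_apply', compL_apply, compL_apply]
    by_cases hv : N ≤ T.level v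
    · have h1 : ‖y v - y u‖ < ε / (4 * (K + 1)) := hN u v huv hv
      have h2 : ‖g v - g u‖ ≤ ‖y v - y u‖ + ‖g - y‖ := by
        have h3 := norm_sub_le' T (g - y) huv
        rw [sub_apply', sub_apply'] at h3
        calc ‖g v - g u‖ = ‖(y v - y u) + ((g v - y v) - (g u - y u))‖ := by ring_nf
          _ ≤ ‖y v - y u‖ + ‖(g v - y v) - (g u - y u)‖ := norm_add_le _ _
          _ ≤ _ := by gcongr
      calc ‖H (g v) - H (y v) - (H (g u) - H (y u))‖
          = ‖(H (g v) - H (g u)) - (H (y v) - H (y u))‖ := by ring_nf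
        _ ≤ ‖H (g v) - H (g u)‖ + ‖H (y v) - H (y u)‖ := norm_sub_le _ _
        _ ≤ K * ‖g v - g u‖ + K * ‖y v - y u‖ := add_le_add (hL _ _) (hL _ _)
        _ ≤ K * (‖y v - y u‖ + ‖g - y‖) + K * ‖y v - y u‖ := by gcongr
        _ = 2 * (K * ‖y v - y u‖) + K * ‖g - y‖ := by ring
        _ ≤ 2 * (K * (ε / (4 * (K + 1)))) + ε / 4 := by gcongr
        _ ≤ 2 * (ε / 4) + ε / 4 := by gcongr
        _ ≤ ε := by linarith
    · have hu : T.level v = T.level u + 1 := huv.2
      have b : ∀ w, T.level w ≤ N → ‖H (g w) - H (y w)‖ ≤ ε / 4 := by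
        intro w hw
        have h1 : ‖g w - y w‖ ≤ (N + 1) * ‖g - y‖ := by
          rw [← sub_apply']
          refine le_trans (apply_le T _ w) ?_
          have : (T.level w : ℝ) ≤ N := by exact_mod_cast hw
          gcongr
        calc ‖H (g w) - H (y w)‖ ≤ K * ‖g w - y w‖ := hL _ _
          _ ≤ K * ((N + 1) * ‖g - y‖) := by gcongr
          _ ≤ K * ((N + 1) * (ε / (4 * (K + 1) * (N + 1)))) := by gcongr
          _ = K * (ε / (4 * (K + 1))) := by
            field_simp
          _ ≤ ε / 4 := hKd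
      calc ‖H (g v) - H (y v) - (H (g u) - H (y u))‖
          ≤ ‖H (g v) - H (y v)‖ + ‖H (g u) - H (y u)‖ := norm_sub_le _ _
        _ ≤ ε / 4 + ε / 4 := add_le_add (b v (by omega)) (b u (by omega))
        _ ≤ ε := by linarith

theorem finsupp_mem {f : V → ℂ} (hf : (Function.support f).Finite) : f ∈ T.littleLip := by
  intro ε hε
  obtain ⟨N, hN⟩ := (hf.image T.level).bddAbove
  refine ⟨N + 2, fun u v huv hv => ?_⟩
  have h0 : ∀ w, N < T.level w → f w = 0 := by
    intro w hw
    by_contra hcon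
    have := hN ⟨w, hcon, rfl⟩
    omega
  have := huv.2
  rw [h0 v (by omega), h0 u (by omega)]
  simpa using hε

/-- clipping of a real number -/
noncomputable def clip (r t : ℝ) : ℝ := max (-r) (min r t)

theorem clip_lip (r r' t t' : ℝ) : |clip r t - clip r' t'| ≤ |r - r'| + |t - t'| := by
  unfold clip
  have h1 := abs_max_sub_max_le_max (-r) (min r t) (-r') (min r' t')
  have h2 := abs_min_sub_min_le_max r t r' t'
  have h3 : |(-r) - (-r')| = |r - r'| := by rw [← abs_neg]; congr 1; ring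
  rw [h3] at h1
  have h4 : max |r - r'| |t - t'| ≤ |r - r'| + |t - t'| :=
    max_le (by linarith [abs_nonneg (t - t')]) (by linarith [abs_nonneg (r - r')])
  refine le_trans h1 (max_le (by linarith [abs_nonneg (t - t')]) (le_trans h2 h4))

/-- clipping of a complex number -/
noncomputable def cclip (r : ℝ) (z : ℂ) : ℂ := ⟨clip r z.re, clip r z.im⟩

theorem cclip_lip (r r' : ℝ) (z z' : ℂ) :
    ‖cclip r z - cclip r' z'‖ ≤ 2 * (|r - r'| + ‖z - z'‖) := by
  refine le_trans (Complex.norm_le_abs_re_add_abs_im _) ?_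
  have h1 := clip_lip r r' z.re z'.re
  have h2 := clip_lip r r' z.im z'.im
  have h3 : |z.re - z'.re| ≤ ‖z - z'‖ := by
    rw [← Complex.sub_re]; exact Complex.abs_re_le_norm _
  have h4 : |z.im - z'.im| ≤ ‖z - z'‖ := by
    rw [← Complex.sub_im]; exact Complex.abs_im_le_norm _
  rw [Complex.sub_re, Complex.sub_im]
  simp only [cclip]
  linarith

theorem cclip_of_le {r : ℝ} {z : ℂ} (h : ‖z‖ ≤ r) : cclip r z = z := by
  have h1 := (Complex.abs_re_le_norm z).trans h
  have h2 := (Complex.abs_im_le_norm z).trans h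
  rw [abs_le] at h1 h2
  apply Complex.ext
  · simp only [cclip, clip]
    rw [min_eq_right h1.2, max_eq_right h1.1]
  · simp only [cclip, clip]
    rw [min_eq_right h2.2, max_eq_right h2.1]

theorem cclip_zero (z : ℂ) : cclip 0 z = 0 := by
  apply Complex.ext <;> simp [cclip, clip]

theorem exists_finsupp (f : T.L0) {ε : ℝ} (hε : 0 < ε) :
    ∃ g : T.L0, (Function.support (g : V → ℂ)).Finite ∧ ‖g - f‖ < ε := by
  set η := ε / 6 with hη
  have hη0 : 0 < η := by positivity
  obtain ⟨N, hN⟩ := f.2 η hη0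
  obtain ⟨B, hB⟩ := ((ball_finite T N).image (fun v => ‖f v‖)).bddAbove
  have hB0 : 0 ≤ B := by
    refine le_trans (norm_nonneg (f T.root)) (hB ⟨T.root, ?_, rfl⟩)
    simp [level_root]
  set R := B + η * N with hR
  let r : V → ℝ := fun v => max 0 (R - η * T.level v)
  have hr : ∀ u v, T.IsParent u v → |r v - r u| ≤ η := by
    intro u v huv
    refine le_trans (abs_max_sub_max_le_max _ _ _ _) ?_
    have h2 : (T.level v : ℝ) = T.level u + 1 := by exact_mod_cast huv.2
    rw [h2]
    apply max_le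
    · simp [hη0.le]
    · have : R - η * (T.level u + 1) - (R - η * T.level u) = -η := by ring
      rw [this, abs_neg, abs_of_pos hη0]
  have hsupp : (Function.support (fun v => cclip (r v) (f v))).Finite := by
    obtain ⟨m, hm⟩ := exists_nat_ge (R / η)
    refine (ball_finite T m).subset (fun v hv => ?_)
    by_contra hcon
    apply hv
    have h1 : (m : ℝ) ≤ T.level v := by
      have : m ≤ T.level v := by
        simp only [Set.mem_ofPred_eq] at hcon; omega
      exact_mod_cast this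
    have h2 : R - η * T.level v ≤ 0 := by
      have h3 : R ≤ η * m := by
        rw [div_le_iff₀ hη0] at hm
        linarith
      nlinarith
    have h3 : r v = 0 := max_eq_left h2
    change cclip (r v) (f v) = 0
    rw [h3, cclip_zero]
  have heq : ∀ v, T.level v ≤ N → cclip (r v) (f v) = f v := by
    intro v hv
    apply cclip_of_le
    refine le_trans (hB ⟨v, hv, rfl⟩) (le_trans ?_ (le_max_right _ _))
    have : (T.level v : ℝ) ≤ N := by exact_mod_cast hv
    rw [hR]
    nlinarith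
  refine ⟨mkL0 T (fun v => cclip (r v) (f v)) (finsupp_mem T hsupp), hsupp, ?_⟩
  refine lt_of_le_of_lt (norm_le_of T (C := 5 * η) (by positivity) ?_ ?_)
    (by rw [hη]; linarith)
  · rw [sub_apply', mkL0_apply, heq _ (by rw [level_root]; omega), sub_self, norm_zero]
    positivity
  · intro u v huv
    rw [sub_apply', mkL0_apply, sub_apply', mkL0_apply]
    have hlv := huv.2
    by_cases hv : T.level v ≤ N
    · rw [heq v hv, heq u (by omega)]
      simp only [sub_self, norm_zero]
      positivity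
    · have h1 : ‖f v - f u‖ < η := hN u v huv (by omega)
      have h2 := cclip_lip (r v) (r u) (f v) (f u)
      have h3 := hr u v huv
      calc ‖cclip (r v) (f v) - f v - (cclip (r u) (f u) - f u)‖
          = ‖(cclip (r v) (f v) - cclip (r u) (f u)) - (f v - f u)‖ := by ring_nf
        _ ≤ ‖cclip (r v) (f v) - cclip (r u) (f u)‖ + ‖f v - f u‖ := norm_sub_le _ _
        _ ≤ 5 * η := by linarith

theorem pow_apply (φ : V → V) (C : T.L0 →L[ℂ] T.L0)
    (hC : ∀ (f : T.L0) (v : V), C f v = f (φ v)) (lam : ℂ) (n : ℕ) :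
    ∀ (f : T.L0) (v : V), ((lam • C) ^ n) f v = lam ^ n * f (φ^[n] v) := by
  induction n with
  | zero => intro f v; simp
  | succ n ih =>
    intro f v
    rw [pow_succ]
    change ((lam • C) ^ n) ((lam • C) f) v = _
    rw [ih]
    change lam ^ n * (lam • (C f)) (φ^[n] v) = _
    rw [smul_apply', hC, Function.iterate_succ_apply']
    ring

/-- tent function -/
noncomputable def tent (a z : ℂ) : ℝ := max 0 (1 - ‖z - a‖)

theorem tent_lip (a z w : ℂ) : |tent a z - tent a w| ≤ ‖z - w‖ := by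
  unfold tent
  refine le_trans (abs_max_sub_max_le_max _ _ _ _) ?_
  simp only [sub_self, abs_zero]
  apply max_le (norm_nonneg _)
  have : (1 - ‖z - a‖) - (1 - ‖w - a‖) = ‖w - a‖ - ‖z - a‖ := by ring
  rw [this]
  refine le_trans (abs_norm_sub_norm_le _ _) ?_
  rw [show w - a - (z - a) = w - z by ring, norm_sub_rev]

theorem tent_self (a : ℂ) : tent a a = 1 := by simp [tent]

theorem tent_far {a z : ℂ} (h : 1 ≤ ‖z - a‖) : tent a z = 0 := by
  unfold tent
  exact max_eq_left (by linarith)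

theorem stage (φ : V → V) (C : T.L0 →L[ℂ] T.L0)
    (hC : ∀ (f : T.L0) (v : V), C f v = f (φ v)) (lam : ℂ) (hlam : ‖lam‖ ≤ 1) (hlam0 : lam ≠ 0)
    (htr : ∀ (x y : T.L0) (ε : ℝ), 0 < ε →
      ∃ (n : ℕ) (f : T.L0), ‖f - x‖ < ε ∧ ‖((lam • C) ^ n) f - y‖ < ε)
    (k : ℕ) (x : ℕ → T.L0) (y : T.L0) (ε : ℝ) (hε : 0 < ε) :
    ∃ (n : ℕ) (x' : ℕ → T.L0) (g : T.L0),
      (∀ i < k, ‖x' i - x i‖ < ε ∧ ‖((lam • C) ^ n) (x' i)‖ < ε) ∧
        ‖g‖ < ε ∧ ‖((lam • C) ^ n) g - y‖ < ε := by
  classical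
  -- finitely supported approximations
  have happ : ∀ i, ∃ g : T.L0, (Function.support (g : V → ℂ)).Finite ∧ ‖g - x i‖ < ε / 3 :=
    fun i => exists_finsupp T (x i) (by positivity)
  choose xt hxt1 hxt2 using happ
  obtain ⟨yt, hyt1, hyt2⟩ := exists_finsupp T y (ε := ε / 3) (by positivity)
  -- the finite set F
  let F : Finset V := (Finset.range k).biUnion (fun i => (hxt1 i).toFinset)
  have hF : ∀ i < k, ∀ v, v ∉ F → xt i v = 0 := by
    intro i hi v hv
    by_contra hcon
    apply hv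
    rw [Finset.mem_biUnion]
    exact ⟨i, Finset.mem_range.mpr hi, by simpa using hcon⟩
  obtain ⟨idx, hidx⟩ := Set.countable_iff_exists_injOn.mp F.countable_toSet
  let c : V → ℂ := fun v => if v ∈ F then ((idx v + 1 : ℕ) : ℂ) else 0
  have hc1 : ∀ v ∈ F, 1 ≤ ‖c v‖ := by
    intro v hv
    simp only [c, hv, if_true]
    rw [Complex.norm_natCast]
    push_cast
    linarith [(Nat.cast_nonneg (idx v) : (0 : ℝ) ≤ idx v)]
  have hc2 : ∀ v ∈ F, ∀ w ∈ F, v ≠ w → 1 ≤ ‖c v - c w‖ := by
    intro v hv w hw hvw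
    have hne : idx v ≠ idx w := fun h => hvw (hidx hv hw h)
    simp only [c, hv, hw, if_true]
    have h1 : (((idx v + 1 : ℕ) : ℂ) - ((idx w + 1 : ℕ) : ℂ)) = (((idx v : ℤ) - idx w : ℤ) : ℂ) := by
      push_cast; ring
    rw [h1, Complex.norm_intCast]
    have h2 : ((idx v : ℤ) - idx w) ≠ 0 := by
      intro h; apply hne; exact_mod_cast sub_eq_zero.mp h
    exact_mod_cast Int.one_le_abs h2
  have hcsupp : (Function.support c).Finite := by
    refine F.finite_toSet.subset (fun v hv => ?_)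
    by_contra hcon
    apply hv
    have : v ∉ F := hcon
    simp [c, this]
  let cx : T.L0 := mkL0 T c (finsupp_mem T hcsupp)
  let H : ℕ → ℂ → ℂ := fun i z => ∑ w ∈ F, (tent (c w) z : ℂ) * xt i w
  obtain ⟨K, hK⟩ : ∃ K : NNReal, ∀ i < k, ∑ w ∈ F, ‖xt i w‖ ≤ K := by
    refine ⟨∑ i ∈ Finset.range k, ∑ w ∈ F, ‖xt i w‖₊, fun i hi => ?_⟩
    push_cast
    exact Finset.single_le_sum (f := fun i => ∑ w ∈ F, ‖xt i w‖)
      (fun j _ => Finset.sum_nonneg (fun _ _ => norm_nonneg _)) (Finset.mem_range.mpr hi)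
  have hHlip : ∀ i < k, LipschitzWith K (H i) := by
    intro i hi
    apply LipschitzWith.of_dist_le_mul
    intro z w
    rw [dist_eq_norm, dist_eq_norm]
    have h1 : H i z - H i w = ∑ v ∈ F, ((tent (c v) z - tent (c v) w : ℝ) : ℂ) * xt i v := by
      simp only [H]
      rw [← Finset.sum_sub_distrib]
      refine Finset.sum_congr rfl (fun v _ => ?_)
      push_cast; ring
    rw [h1]
    refine le_trans (norm_sum_le _ _) ?_
    have h2 : ∀ v ∈ F, ‖((tent (c v) z - tent (c v) w : ℝ) : ℂ) * xt i v‖ ≤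
        ‖xt i v‖ * ‖z - w‖ := by
      intro v _
      rw [norm_mul, Complex.norm_real, Real.norm_eq_abs, mul_comm]
      exact mul_le_mul_of_nonneg_left (tent_lip _ _ _) (norm_nonneg _)
    refine le_trans (Finset.sum_le_sum h2) ?_
    rw [← Finset.sum_mul]
    exact mul_le_mul_of_nonneg_right (hK i hi) (norm_nonneg _)
  have hH0 : ∀ i, H i 0 = 0 := by
    intro i
    apply Finset.sum_eq_zero
    intro w hw
    rw [tent_far, Complex.ofReal_zero, zero_mul]
    rw [zero_sub, norm_neg]
    exact hc1 w hw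
  have hHc : ∀ i < k, ∀ v, H i (c v) = xt i v := by
    intro i hi v
    by_cases hv : v ∈ F
    · simp only [H]
      rw [Finset.sum_eq_single v]
      · rw [tent_self, Complex.ofReal_one, one_mul]
      · intro w hw hwv
        rw [tent_far (hc2 v hv w hw (Ne.symm hwv)), Complex.ofReal_zero, zero_mul]
      · intro h; exact absurd hv h
    · have : c v = 0 := by simp [c, hv]
      rw [this, hH0, hF i hi v hv]
  obtain ⟨b, hb0, hb⟩ : ∃ b : ℝ, 0 ≤ b ∧ ∀ i z, b ≤ ‖z‖ → H i z = 0 := by
    refine ⟨∑ w ∈ F, ‖c w‖ + 1, by positivity, fun i z hz => ?_⟩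
    apply Finset.sum_eq_zero
    intro w hw
    rw [tent_far, Complex.ofReal_zero, zero_mul]
    have h1 : ‖c w‖ ≤ ∑ w ∈ F, ‖c w‖ :=
      Finset.single_le_sum (f := fun w => ‖c w‖) (fun _ _ => norm_nonneg _) hw
    have h2 := norm_sub_norm_le z (c w)
    linarith
  -- the multiplier
  obtain ⟨M, hM1, hM2, hM3⟩ : ∃ M : ℝ, 1 ≤ M ∧ (∀ v, yt v ≠ 0 → b ≤ M * ‖yt v‖) ∧
      (‖cx‖ + 1) / M < ε := by
    have hs0 : 0 ≤ ∑ v ∈ hyt1.toFinset, b / ‖yt v‖ :=
      Finset.sum_nonneg (fun v _ => by positivity)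
    have hq0 : 0 ≤ 2 * (‖cx‖ + 1) / ε := by positivity
    refine ⟨1 + ∑ v ∈ hyt1.toFinset, b / ‖yt v‖ + 2 * (‖cx‖ + 1) / ε, by linarith, ?_, ?_⟩
    · intro v hv
      have hv' : 0 < ‖yt v‖ := norm_pos_iff.mpr hv
      have h1 : b / ‖yt v‖ ≤ ∑ v ∈ hyt1.toFinset, b / ‖yt v‖ :=
        Finset.single_le_sum (f := fun v => b / ‖yt v‖) (fun v _ => by positivity)
          (by simpa using hv)
      rw [← div_le_iff₀ hv']
      linarith
    · rw [div_lt_iff₀ (by linarith)]
      have h1 : ε * (2 * (‖cx‖ + 1) / ε) = 2 * (‖cx‖ + 1) := by field_simp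
      have h2 : 0 ≤ ε * (1 + ∑ v ∈ hyt1.toFinset, b / ‖yt v‖) := by positivity
      have h3 : 0 ≤ ‖cx‖ := norm_nonneg _
      nlinarith
  have hM0 : 0 < M := by linarith
  obtain ⟨δ1, hδ1, hu1⟩ := comp_unif T ((M : ℂ) • yt) K (ε := ε / 3) (by positivity)
  obtain ⟨δ2, hδ2, hu2⟩ := comp_unif T cx K (ε := ε / 3) (by positivity)
  obtain ⟨n, f, hf1, hf2⟩ := htr cx ((M : ℂ) • yt) (min (min δ1 δ2) (min 1 (ε / 3)))
    (by positivity)
  have hf1a : ‖f - cx‖ < δ2 := lt_of_lt_of_le hf1 ((min_le_left _ _).trans (min_le_right _ _))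
  have hf1b : ‖f - cx‖ < 1 := lt_of_lt_of_le hf1 ((min_le_right _ _).trans (min_le_left _ _))
  have hf2a : ‖((lam • C) ^ n) f - (M : ℂ) • yt‖ < δ1 :=
    lt_of_lt_of_le hf2 ((min_le_left _ _).trans (min_le_left _ _))
  have hf2b : ‖((lam • C) ^ n) f - (M : ℂ) • yt‖ < ε / 3 :=
    lt_of_lt_of_le hf2 ((min_le_right _ _).trans (min_le_right _ _))
  have hMn : ‖(M : ℂ)‖ = M := by rw [Complex.norm_real, Real.norm_of_nonneg hM0.le]
  have hMC : (M : ℂ) ≠ 0 := by exact_mod_cast hM0.ne'
  refine ⟨n, fun i => if h : i < k then compL T (H i) ⟨K, hHlip i h⟩ f else 0,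
    (M : ℂ)⁻¹ • f, ?_, ?_, ?_⟩
  · intro i hi
    simp only [hi, dif_pos]
    constructor
    · have h1 : compL T (H i) ⟨K, hHlip i hi⟩ cx = xt i := by
        apply ext'
        intro v
        exact hHc i hi v
      have h2 := hu2 f hf1a (H i) (hHlip i hi)
      rw [h1] at h2
      calc ‖compL T (H i) ⟨K, hHlip i hi⟩ f - x i‖
          = ‖(compL T (H i) ⟨K, hHlip i hi⟩ f - xt i) + (xt i - x i)‖ := by congr 1; abel
        _ ≤ _ := norm_add_le _ _
        _ < ε := by linarith [hxt2 i]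
    · have hln : lam ^ n ≠ 0 := pow_ne_zero n hlam0
      let Hn : ℂ → ℂ := fun z => lam ^ n * H i ((lam ^ n)⁻¹ * z)
      have hHn : LipschitzWith K Hn := by
        apply LipschitzWith.of_dist_le_mul
        intro z w
        have h1 := (hHlip i hi).dist_le_mul ((lam ^ n)⁻¹ * z) ((lam ^ n)⁻¹ * w)
        rw [dist_eq_norm, dist_eq_norm] at h1 ⊢
        simp only [Hn]
        rw [← mul_sub, norm_mul]
        rw [← mul_sub, norm_mul, norm_inv] at h1
        have h3 : 0 < ‖lam ^ n‖ := norm_pos_iff.mpr hln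
        calc ‖lam ^ n‖ * ‖H i ((lam ^ n)⁻¹ * z) - H i ((lam ^ n)⁻¹ * w)‖
            ≤ ‖lam ^ n‖ * (K * (‖lam ^ n‖⁻¹ * ‖z - w‖)) := by gcongr
          _ = K * ‖z - w‖ := by field_simp
      have h1 : ((lam • C) ^ n) (compL T (H i) ⟨K, hHlip i hi⟩ f) =
          compL T Hn ⟨K, hHn⟩ (((lam • C) ^ n) f) := by
        apply ext'
        intro v
        rw [pow_apply T φ C hC, compL_apply, compL_apply, pow_apply T φ C hC]
        simp only [Hn]
        rw [← mul_assoc, inv_mul_cancel₀ hln, one_mul]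
      have h2 : compL T Hn ⟨K, hHn⟩ ((M : ℂ) • yt) = 0 := by
        apply ext'
        intro v
        rw [compL_apply, smul_apply', zero_apply']
        simp only [Hn]
        by_cases hv : yt v = 0
        · rw [hv, mul_zero, mul_zero, hH0, mul_zero]
        · rw [hb, mul_zero]
          rw [norm_mul, norm_mul, hMn, norm_inv]
          have h3 : 0 < ‖lam ^ n‖ := norm_pos_iff.mpr hln
          have h4 : ‖lam ^ n‖ ≤ 1 := by
            rw [norm_pow]; exact pow_le_one₀ (norm_nonneg _) hlam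
          have h5 : 1 ≤ ‖lam ^ n‖⁻¹ := (one_le_inv₀ h3).mpr h4
          have h6 := hM2 v hv
          have h7 : 0 ≤ M * ‖yt v‖ := by positivity
          nlinarith
      have h3 := hu1 _ hf2a Hn hHn
      rw [h2, sub_zero] at h3
      rw [h1]
      linarith
  · rw [norm_smul, norm_inv, hMn]
    have h1 : ‖f‖ < ‖cx‖ + 1 := by
      have : f = cx + (f - cx) := by abel
      calc ‖f‖ = ‖cx + (f - cx)‖ := by rw [← this]
        _ ≤ ‖cx‖ + ‖f - cx‖ := norm_add_le _ _
        _ < _ := by linarith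
    calc M⁻¹ * ‖f‖ ≤ M⁻¹ * (‖cx‖ + 1) := by gcongr
      _ = (‖cx‖ + 1) / M := by ring
      _ < ε := hM3
  · have h1 : ((lam • C) ^ n) ((M : ℂ)⁻¹ • f) - y =
        (M : ℂ)⁻¹ • (((lam • C) ^ n) f - (M : ℂ) • yt) + (yt - y) := by
      rw [map_smul, smul_sub, smul_smul, inv_mul_cancel₀ hMC, one_smul]
      abel
    rw [h1]
    refine lt_of_le_of_lt (norm_add_le _ _) ?_
    rw [norm_smul, norm_inv, hMn]
    have h2 : M⁻¹ * ‖((lam • C) ^ n) f - (M : ℂ) • yt‖ ≤
        1 * ‖((lam • C) ^ n) f - (M : ℂ) • yt‖ := by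
      gcongr
      exact inv_le_one_of_one_le₀ hM1
    linarith

/-! ### the copy of `c₀` -/

/-- a vertex at level `2 (i + 1)` -/
noncomputable def vtx (i : ℕ) : V := (exists_level T (2 * (i + 1))).choose

theorem level_vtx (i : ℕ) : T.level (vtx T i) = 2 * (i + 1) :=
  (exists_level T (2 * (i + 1))).choose_spec

open Classical in
/-- the function underlying `J a` -/
noncomputable def Jfun (a : C₀(ℕ, ℂ)) (w : V) : ℂ :=
  if w = vtx T (T.level w / 2 - 1) then a (T.level w / 2 - 1) else 0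

theorem Jfun_vtx (a : C₀(ℕ, ℂ)) (i : ℕ) : Jfun T a (vtx T i) = a i := by
  have h : T.level (vtx T i) / 2 - 1 = i := by rw [level_vtx]; omega
  unfold Jfun
  rw [h, if_pos rfl]

theorem Jfun_odd (a : C₀(ℕ, ℂ)) {w : V} (hw : T.level w % 2 = 1) : Jfun T a w = 0 := by
  unfold Jfun
  rw [if_neg]
  intro h
  have := level_vtx T (T.level w / 2 - 1)
  rw [← h] at this
  omega

theorem Jfun_le (a : C₀(ℕ, ℂ)) (w : V) : ‖Jfun T a w‖ ≤ ‖a‖ := by
  unfold Jfun
  split_ifs
  · exact coe_le_norm a _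
  · rw [norm_zero]; exact norm_nonneg _

theorem Jfun_le' (a : C₀(ℕ, ℂ)) (w : V) : ‖Jfun T a w‖ ≤ ‖a (T.level w / 2 - 1)‖ := by
  unfold Jfun
  split_ifs
  · exact le_rfl
  · rw [norm_zero]; exact norm_nonneg _

theorem Jfun_mem (a : C₀(ℕ, ℂ)) : Jfun T a ∈ T.littleLip := by
  intro ε hε
  have h := tendsto_coe a
  rw [Metric.tendsto_atTop] at h
  obtain ⟨N, hN⟩ := h (ε / 2) (by positivity)
  refine ⟨2 * N + 4, fun u v huv hv => ?_⟩
  have huv2 := huv.2
  have h1 : ‖Jfun T a v‖ < ε / 2 := by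
    refine lt_of_le_of_lt (Jfun_le' T a v) ?_
    have := hN (T.level v / 2 - 1) (by omega)
    rwa [dist_zero_right] at this
  have h2 : ‖Jfun T a u‖ < ε / 2 := by
    refine lt_of_le_of_lt (Jfun_le' T a u) ?_
    have := hN (T.level u / 2 - 1) (by omega)
    rwa [dist_zero_right] at this
  calc ‖Jfun T a v - Jfun T a u‖ ≤ ‖Jfun T a v‖ + ‖Jfun T a u‖ := norm_sub_le _ _
    _ < ε := by linarith

/-- the embedding of `c₀` -/
noncomputable def J : C₀(ℕ, ℂ) →ₗ[ℂ] T.L0 where
  toFun a := mkL0 T (Jfun T a) (Jfun_mem T a)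
  map_add' a b := by
    apply ext'
    intro v
    rw [add_apply', mkL0_apply, mkL0_apply, mkL0_apply]
    unfold Jfun
    split_ifs
    · rw [ZeroAtInftyContinuousMap.add_apply]
    · rw [add_zero]
  map_smul' c a := by
    apply ext'
    intro v
    rw [RingHom.id_apply, smul_apply', mkL0_apply, mkL0_apply]
    unfold Jfun
    split_ifs
    · rw [ZeroAtInftyContinuousMap.smul_apply, smul_eq_mul]
    · rw [mul_zero]

theorem J_apply (a : C₀(ℕ, ℂ)) (v : V) : J T a v = Jfun T a v := rfl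

theorem norm_le_J (a : C₀(ℕ, ℂ)) : ‖a‖ ≤ ‖J T a‖ := by
  refine norm_le_of_forall a (norm_nonneg _) (fun i => ?_)
  obtain ⟨u, hu⟩ := exists_parent T (v := vtx T i) (by rw [level_vtx]; omega)
  have h1 := norm_sub_le' T (J T a) hu
  have h2 := hu.2
  rw [level_vtx] at h2
  rw [J_apply, J_apply, Jfun_vtx, Jfun_odd T a (w := u) (by omega), sub_zero] at h1
  exact h1

theorem pow_J_le (φ : V → V) (C : T.L0 →L[ℂ] T.L0)
    (hC : ∀ (f : T.L0) (v : V), C f v = f (φ v)) (lam : ℂ) (hlam : ‖lam‖ ≤ 1) (n : ℕ)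
    (a : C₀(ℕ, ℂ)) : ‖((lam • C) ^ n) (J T a)‖ ≤ 2 * ‖a‖ := by
  have h1 : ∀ v, ‖((lam • C) ^ n) (J T a) v‖ ≤ ‖a‖ := by
    intro v
    rw [pow_apply T φ C hC, J_apply, norm_mul, norm_pow]
    calc ‖lam‖ ^ n * ‖Jfun T a (φ^[n] v)‖ ≤ 1 * ‖a‖ := by
          gcongr
          · exact pow_le_one₀ (norm_nonneg _) hlam
          · exact Jfun_le T a _
      _ = ‖a‖ := one_mul _
  refine norm_le_of T (by positivity) ?_ ?_
  · refine (h1 _).trans ?_
    linarith [norm_nonneg a]
  · intro u v _
    refine (norm_sub_le _ _).trans ?_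
    linarith [h1 u, h1 v]

theorem main {V : Type u} (T : RootedTree V) (φ : V → V) (C : T.L0 →L[ℂ] T.L0)
    (hC : ∀ (f : T.L0) (v : V), C f v = f (φ v)) (lam : ℂ) (hlam : ‖lam‖ ≤ 1)
    (hyp : ∃ x, AbsHypercyclicVector (lam • C) x) : AbsHypercyclicSubspace (lam • C) := by
  obtain ⟨x0, hx0⟩ := hyp
  unfold AbsHypercyclicVector at hx0
  -- the space is separable and nontrivial
  have hsep : SeparableSpace T.L0 :=
    ⟨⟨Set.range fun n : ℕ => ((lam • C) ^ n) x0, Set.countable_range _, hx0⟩⟩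
  have hne : J T (sgl 0) ≠ 0 := by
    intro h
    have h1 := norm_le_J T (sgl 0)
    rw [h, norm_zero] at h1
    have h2 := coe_le_norm (sgl 0) 0
    rw [sgl_apply, if_pos rfl, norm_one] at h2
    linarith
  have hnt : Nontrivial T.L0 := ⟨⟨_, _, hne⟩⟩
  -- lam ≠ 0
  have hlam0 : lam ≠ 0 := by
    intro h0
    have hfin : (Set.range fun n : ℕ => ((lam • C) ^ n) x0).Finite := by
      refine (Set.toFinite {x0, 0}).subset ?_
      rintro _ ⟨n, rfl⟩
      rcases Nat.eq_zero_or_pos n with hn | hn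
      · left; simp [hn]
      · right
        simp only [h0, zero_smul, Set.mem_singleton_iff]
        rw [zero_pow (by omega)]
        rfl
    have huniv : (Set.univ : Set T.L0).Finite := by
      rw [← hx0.closure_eq, hfin.isClosed.closure_eq]
      exact hfin
    exact (Set.infinite_univ_iff.mpr (Module.Free.infinite ℂ T.L0)) huniv
  -- transitivity
  have htr : ∀ (x y : T.L0) (ε : ℝ), 0 < ε →
      ∃ (n : ℕ) (f : T.L0), ‖f - x‖ < ε ∧ ‖((lam • C) ^ n) f - y‖ < ε := by
    intro x y ε hε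
    rw [Metric.dense_iff] at hx0
    obtain ⟨_, hz1, m, rfl⟩ := hx0 x ε hε
    have hd2 : Dense ((Set.range fun n : ℕ => ((lam • C) ^ n) x0) \
        ((fun n : ℕ => ((lam • C) ^ n) x0) '' (Set.Iio m))) := by
      rw [← Metric.dense_iff] at hx0
      exact hx0.sdiff_finite ((Set.finite_Iio m).image _)
    rw [Metric.dense_iff] at hd2
    obtain ⟨_, hw1, ⟨m', rfl⟩, hw2⟩ := hd2 y ε hε
    have hm : m ≤ m' := by
      by_contra hcon
      exact hw2 ⟨m', by simpa using hcon, rfl⟩
    refine ⟨m' - m, ((lam • C) ^ m) x0, ?_, ?_⟩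
    · rwa [Metric.mem_ball, dist_eq_norm] at hz1
    · have : ((lam • C) ^ (m' - m)) (((lam • C) ^ m) x0) = ((lam • C) ^ m') x0 := by
        rw [← mul_apply_eq_comp, ← pow_add, Nat.sub_add_cancel hm]
      rw [this]
      rwa [Metric.mem_ball, dist_eq_norm] at hw1
  exact hasHypercyclicSubspace (lam • C) (stage T φ C hC lam hlam hlam0 htr) (J T)
    (norm_le_J T) 2 (pow_J_le T φ C hC lam hlam)


/-- the inclusion of `𝓛₀(T)` in the space of all functions -/
noncomputable def incl : T.L0 →ₗ[ℂ] (V → ℂ) where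
  toFun f := f.1
  map_add' _ _ := rfl
  map_smul' _ _ := rfl

theorem incl_apply (f : T.L0) (v : V) : incl T f v = f v := rfl

theorem incl_injective : Function.Injective (incl T) := fun _ _ h => Subtype.ext h

theorem norm_eq (f : T.L0) : ‖f‖ = T.lipNorm (incl T f) := rfl

theorem inL0_incl (f : T.L0) : T.InL0 (incl T f) := f.2

/-- Let `T` be a rooted tree, `φ : T → T` a map inducing a (bounded) composition operator `C_φ` on
the little Lipschitz space `𝓛₀(T)`, and `lam` a complex number with `|lam| ≤ 1` such that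
`lam • C_φ` is hypercyclic. Then `lam • C_φ` has a hypercyclic subspace. -/
theorem result {V : Type u} (T : RootedTree V) (φ : V → V)
    (hφ : T.IsBoundedCompositionOperator φ) (lam : ℂ) (hlam : ‖lam‖ ≤ 1)
    (hyp : ∃ f, T.IsHypercyclicVector lam φ f) : T.HasHypercyclicSubspace lam φ := by
  obtain ⟨K, hK⟩ := hφ
  let C0 : T.L0 →ₗ[ℂ] T.L0 :=
    { toFun := fun f => mkL0 T (fun v => f (φ v)) ((hK (incl T f) (inL0_incl T f)).1)
      map_add' := fun f g => ext' T (fun v => rfl)
      map_smul' := fun c f => ext' T (fun v => rfl) }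
  let C : T.L0 →L[ℂ] T.L0 := C0.mkContinuous K (fun f => (hK (incl T f) (inL0_incl T f)).2)
  have hC : ∀ (f : T.L0) (v : V), C f v = f (φ v) := fun f v => rfl
  have hiter : ∀ (n : ℕ) (f : T.L0), incl T (((lam • C) ^ n) f) =
      (compOp lam φ)^[n] (incl T f) := by
    intro n
    induction n with
    | zero => intro f; simp
    | succ n ih =>
      intro f
      rw [pow_succ, Function.iterate_succ_apply]
      change incl T (((lam • C) ^ n) ((lam • C) f)) = _
      rw [ih]
      rfl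
  have hiff : ∀ f : T.L0, AbsHypercyclicVector (lam • C) f ↔
      T.IsHypercyclicVector lam φ (incl T f) := by
    intro f
    unfold AbsHypercyclicVector RootedTree.IsHypercyclicVector
    rw [Metric.dense_iff]
    constructor
    · intro h
      refine ⟨inL0_incl T f, fun g hg ε hε => ?_⟩
      obtain ⟨_, hz, n, rfl⟩ := h (mkL0 T g hg) ε hε
      refine ⟨n, ?_⟩
      rw [Metric.mem_ball, dist_eq_norm, norm_eq, map_sub, hiter] at hz
      exact hz
    · rintro ⟨_, h⟩ g ε hε
      obtain ⟨n, hn⟩ := h (incl T g) (inL0_incl T g) ε hε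
      refine ⟨((lam • C) ^ n) f, ?_, ⟨n, rfl⟩⟩
      rw [Metric.mem_ball, dist_eq_norm, norm_eq, map_sub, hiter]
      exact hn
  obtain ⟨f0, hf0⟩ := hyp
  obtain ⟨M, hM1, hM2, hM3⟩ := main T φ C hC lam hlam
    ⟨mkL0 T f0 hf0.1, (hiff (mkL0 T f0 hf0.1)).2 hf0⟩
  refine ⟨M.map (incl T), ?_, ?_, ?_, ?_⟩
  · rintro _ ⟨f, _, rfl⟩
    exact inL0_incl T f
  · intro g hg happ
    refine ⟨mkL0 T g hg, ?_, rfl⟩
    have : mkL0 T g hg ∈ closure (M : Set T.L0) := by
      rw [Metric.mem_closure_iff]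
      intro ε hε
      obtain ⟨_, ⟨f, hf, rfl⟩, hf2⟩ := happ ε hε
      refine ⟨f, hf, ?_⟩
      rw [dist_comm, dist_eq_norm, norm_eq, map_sub]
      exact hf2
    rwa [hM1.closure_eq] at this
  · intro hfd
    apply hM2
    exact (Submodule.equivMapOfInjective (incl T) (incl_injective T) M).symm.finiteDimensional
  · rintro _ ⟨f, hf, rfl⟩ hne
    refine (hiff f).1 (hM3 f hf ?_)
    rintro rfl
    exact hne (map_zero _)

end Pool.Agent.Results.MP_b108d3_an.HypercyclicSubspace
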